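import Pool.Agent.MP_3ce0a0_al.H79.SpecN

/-
Points with small orbits, and supports.
-/

namespace Pool.Agent.MP_3ce0a0_al.H5

open Equiv Pool.Agent.MP_3ce0a0_al.H79

lemma key {α Ω : Type} [DecidableEq α] (K : Finset α → Subgroup (Perm Ω)) (hm : Monotone K)
    (J : Finset α) (ω : Ω) (T : Finset Ω) (hT : ∀ U, ∀ k ∈ K U, k ω ∈ T) {r : ℕ}
    (hr : T.card < 2 ^ r) : ∃ I ⊆ J, I.card < r ∧ ∀ t ∈ J, t ∉ I → ∀ g ∈ K (insert t I),
      (∀ k ∈ K I, Commute g k) → ∃ k ∈ K I, k ω = g ω := by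
  classical
  let O : Finset α → Finset Ω := fun U => T.filter fun x => ∃ k ∈ K U, k ω = x
  have hO : ∀ U x, x ∈ O U ↔ ∃ k ∈ K U, k ω = x := fun U x =>
    Finset.mem_filter.trans ⟨fun h => h.2, fun ⟨k, h, e⟩ => ⟨e ▸ hT U k h, k, h, e⟩⟩
  obtain ⟨I, hI, hM⟩ := (J.powerset.filter fun U => 2 ^ U.card ≤ (O U).card).exists_max_image
    Finset.card ⟨∅, by
      simpa using Finset.card_pos.2 ⟨ω, (hO ∅ ω).2 ⟨1, one_mem _, rfl⟩⟩⟩
  simp only [Finset.mem_filter, Finset.mem_powerset] at hI hM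
  refine ⟨I, hI.1, (Nat.pow_lt_pow_iff_right one_lt_two).1
    ((hI.2.trans (Finset.card_filter_le _ _)).trans_lt hr), fun t ht htI g hg hc => ?_⟩
  by_contra hn
  have h1 : Disjoint (O I) ((O I).map g.toEmbedding) := by
    rw [Finset.disjoint_left]
    intro x hx hx'
    obtain ⟨y, hy, rfl⟩ := Finset.mem_map.1 hx'
    obtain ⟨k, hk, rfl⟩ := (hO _ _).1 hy
    obtain ⟨k', hk', e⟩ := (hO _ _).1 hx
    refine hn ⟨k⁻¹ * k', mul_mem (inv_mem hk) hk', ?_⟩
    rw [Perm.mul_apply, e, Perm.inv_eq_iff_eq]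
    exact DFunLike.congr_fun (hc k hk).eq ω
  have h2 : (O I).disjUnion _ h1 ⊆ O (insert t I) := by
    intro x hx
    have hle := hm (Finset.subset_insert t I)
    rcases Finset.mem_disjUnion.1 hx with h | h
    · obtain ⟨k, hk, e⟩ := (hO _ _).1 h
      exact (hO _ _).2 ⟨k, hle hk, e⟩
    · obtain ⟨y, hy, rfl⟩ := Finset.mem_map.1 h
      obtain ⟨k, hk, rfl⟩ := (hO _ _).1 hy
      exact (hO _ _).2 ⟨g * k, mul_mem hg (hle hk), rfl⟩
  have h3 := Finset.card_le_card h2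
  rw [Finset.card_disjUnion, Finset.card_map] at h3
  have h4 := hM (insert t I) ⟨Finset.insert_subset ht hI.1, by
    rw [Finset.card_insert_of_notMem htI, pow_succ]
    omega⟩
  rw [Finset.card_insert_of_notMem htI] at h4
  omega

variable {ι Ω : Type} [Fintype ι] [DecidableEq ι]

/-- permutations supported in `S`. -/
def Sup (S : Finset ι) : Subgroup (Perm ι) where
  carrier := {σ | ∀ a, a ∉ S → σ a = a}
  mul_mem' h h' a ha := by rw [Perm.mul_apply, h' a ha, h a ha]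
  one_mem' _ _ := rfl
  inv_mem' h a ha := Perm.inv_eq_iff_eq.2 (h a ha).symm

omit [Fintype ι] [DecidableEq ι] in
lemma Sup.mono {S S' : Finset ι} (h : S ⊆ S') : Sup S ≤ Sup S' :=
  fun _ hσ a ha => hσ a fun x => ha (h x)

omit [Fintype ι] [DecidableEq ι] in
lemma Sup.comm {S S' : Finset ι} (h : Disjoint S S') {σ τ : Perm ι} (h1 : σ ∈ Sup S)
    (h2 : τ ∈ Sup S') : Commute σ τ :=
  Perm.Disjoint.commute fun a => (em (a ∈ S)).elim
    (fun x => Or.inr (h2 a (Finset.disjoint_left.1 h x))) fun x => Or.inl (h1 a x)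

omit [Fintype ι] [DecidableEq ι] in
lemma Sup.app {S : Finset ι} {σ : Perm ι} (h : σ ∈ Sup S) {a : ι} (ha : a ∈ S) : σ a ∈ S := by
  by_contra hn
  exact hn (by rwa [σ.injective (h _ hn)])

omit [Fintype ι] in
lemma Sup.swap {S : Finset ι} {a b : ι} (ha : a ∈ S) (hb : b ∈ S) : swap a b ∈ Sup S :=
  fun _ hc => swap_apply_of_ne_of_ne (fun e => hc (e ▸ ha)) fun e => hc (e ▸ hb)

lemma gen (H : Subgroup (Perm ι)) {Y : Finset ι} {a b : ι} (_hab : a ≠ b)
    (h : ∀ c ∈ Y, c ≠ a → swap a b * swap a c ∈ H) (σ : Perm ι) (hσ : σ ∈ Sup Y)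
    (hs : Perm.sign σ = 1) : σ ∈ H := by
  let R : Perm ι → Prop := fun σ =>
    (Perm.sign σ = 1 → σ ∈ H) ∧ (Perm.sign σ = -1 → swap a b * σ ∈ H)
  have h1 : ∀ c ∈ Y, c ≠ a → ∀ σ, R σ → R (swap a c * σ) := by
    intro c hc hca σ hR
    refine ⟨fun e => ?_, fun e => ?_⟩ <;>
      rw [map_mul, Perm.sign_swap hca.symm, neg_one_mul] at e
    · simpa [mul_assoc] using mul_mem (inv_mem (h c hc hca)) (hR.2 (neg_eq_iff_eq_neg.1 e))
    · rw [← mul_assoc]
      exact mul_mem (h c hc hca) (hR.1 (neg_injective e))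
  have h2 : ∀ x ∈ Y, ∀ y ∈ Y, x ≠ y → ∀ σ, R σ → R (swap x y * σ) := by
    intro x hx y hy hxy σ hR
    by_cases e : x = a
    · exact e ▸ h1 y hy (e ▸ hxy.symm) σ hR
    by_cases e' : y = a
    · rw [swap_comm]
      exact e' ▸ h1 x hx e σ hR
    have := h1 x hx e _ (h1 y hy e' _ (h1 x hx e σ hR))
    rwa [← mul_assoc, ← mul_assoc, swap_comm a y, swap_mul_swap_mul_swap e' hxy.symm] at this
  have h3 : ∀ n (σ : Perm ι), σ.support.card = n → σ ∈ Sup Y → R σ := by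
    intro n
    induction n using Nat.strong_induction_on with
    | _ n ih =>
    intro σ e hσ
    by_cases h0 : σ = 1
    · exact h0 ▸ ⟨fun _ => one_mem _, fun e => by simp at e⟩
    obtain ⟨x, hx⟩ : ∃ x, σ x ≠ x := by
      by_contra hn
      exact h0 (Perm.ext (by simpa using hn))
    have hxY : x ∈ Y := by
      by_contra hn
      exact hx (hσ x hn)
    have := h2 x hxY _ (Sup.app hσ hxY) hx.symm _ (ih _ (e ▸ Perm.card_support_swap_mul hx) _ rfl
      (mul_mem (Sup.swap hxY (Sup.app hσ hxY)) hσ))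
    simpa using this
  exact (h3 _ σ rfl hσ).1 hs

/-- the stabiliser of a point. -/
def Stab (P : WS ι (Perm Ω)) (ω : Ω) : Subgroup (Perm ι) :=
  (MulAction.stabilizer (Perm Ω) ω).comap P.π

omit [Fintype ι] [DecidableEq ι] in
lemma eps_eps (P : WS ι (Perm Ω)) (a : ι) (x : Ω) : P.ε a (P.ε a x) = x :=
  DFunLike.congr_fun (P.ε_sq a) x

omit [Fintype ι] [DecidableEq ι] in
lemma pi_eps (P : WS ι (Perm Ω)) (σ : Perm ι) (a : ι) (x : Ω) :
    P.π σ (P.ε a x) = P.ε (σ a) (P.π σ x) :=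
  DFunLike.congr_fun (P.π_ε σ a) x

/-- a block that carries a moving element of order three. -/
def Bad (P : WS ι (Perm Ω)) (ω : Ω) (B : Finset ι) : Prop :=
  B.card ≤ 3 ∧ ∃ c ∈ Sup B, ∃ h ∈ Sup B, c * h * c = h ∧ c * c * c = 1 ∧ P.π c ω ≠ ω

lemma few (P : WS ι (Perm Ω)) (ω : Ω) (T : Finset Ω) {r : ℕ} (hT : ∀ σ, P.π σ ω ∈ T)
    (hr : T.card < 2 ^ r) (J : Finset (Finset ι)) (hJ : ∀ B ∈ J, Bad P ω B)
    (hd : ∀ B ∈ J, ∀ B' ∈ J, B ≠ B' → Disjoint B B') : J.card + 2 ≤ 2 * r := by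
  have hS : ∀ {U U' : Finset (Finset ι)}, U ⊆ U' → Sup (U.biUnion id) ≤ Sup (U'.biUnion id) :=
    fun h => Sup.mono (Finset.biUnion_subset_biUnion_of_subset_left _ h)
  have hB : ∀ (B : Finset ι) (U : Finset (Finset ι)), Sup B ≤ Sup ((insert B U).biUnion id) := fun B U =>
    Sup.mono (Finset.subset_biUnion_of_mem id (Finset.mem_insert_self B U))
  have hD : ∀ B ∈ J, ∀ U ⊆ J, B ∉ U → Disjoint B (U.biUnion id) := fun B h U hU hn =>
    (Finset.disjoint_biUnion_right _ _ _).2 fun B' h' => hd B h B' (hU h') fun e => hn (e ▸ h')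
  obtain ⟨I, hI, hI1, hI2⟩ := key (fun U => (Sup (U.biUnion id)).map P.π)
    (fun _ _ h => Subgroup.map_mono (hS h)) J ω T (by
      rintro U _ ⟨σ, -, rfl⟩
      exact hT σ) hr
  let Q : Subgroup (Perm ι) :=
    { carrier := {p | p ∈ Sup (I.biUnion id)ᶜ ∧ ∃ k ∈ Sup (I.biUnion id), P.π k ω = P.π p ω}
      mul_mem' := by
        rintro p q ⟨hp, k, hk, e⟩ ⟨hq, k', hk', e'⟩
        refine ⟨mul_mem hp hq, k' * k, mul_mem hk' hk, ?_⟩
        rw [map_mul, map_mul, Perm.mul_apply, Perm.mul_apply, e, ← e', ← Perm.mul_apply,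
          ← Perm.mul_apply, ← map_mul, ← map_mul, (Sup.comm disjoint_compl_right hk' hp).eq]
      one_mem' := ⟨one_mem _, 1, one_mem _, rfl⟩
      inv_mem' := by
        rintro p ⟨hp, k, hk, e⟩
        refine ⟨inv_mem hp, k⁻¹, inv_mem hk, ?_⟩
        rw [map_inv, map_inv, Perm.inv_eq_iff_eq, ← Perm.mul_apply,
          ((Sup.comm disjoint_compl_right hk hp).map P.π).inv_right.eq, Perm.mul_apply, e]
        simp }
  have hQ : ∀ B ∈ J, B ∉ I → Sup B ≤ Q := by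
    intro B h hn g hg
    refine ⟨Sup.mono (Finset.subset_compl_iff_disjoint_right.2 (hD B h I hI hn)) hg, ?_⟩
    obtain ⟨_, ⟨k, hk, rfl⟩, e⟩ := hI2 B h hn _ ⟨g, hB B I hg, rfl⟩ (by
      rintro _ ⟨k, hk, rfl⟩
      exact (Sup.comm (hD B h I hI hn) hg hk).map P.π)
    exact ⟨k, hk, e⟩
  obtain ⟨U, hU, hU1, hU2⟩ := key (fun U => (Sup (U.biUnion id) ⊓ Q).map P.π)
    (fun _ _ h => Subgroup.map_mono (inf_le_inf_right _ (hS h))) (J \ I) ω T (by
      rintro U _ ⟨σ, -, rfl⟩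
      exact hT σ) hr
  by_contra hn
  obtain ⟨B, h, hBU⟩ := Finset.exists_mem_notMem_of_card_lt_card
    (show U.card < (J \ I).card by
      rw [Finset.card_sdiff_of_subset hI]
      omega)
  obtain ⟨h1, h2⟩ := Finset.mem_sdiff.1 h
  obtain ⟨-, c, hc, g, hg, e1, e2, e3⟩ := hJ B h1
  have hDU := hD B h1 U (hU.trans Finset.sdiff_subset) hBU
  obtain ⟨_, ⟨k, ⟨hk, hkQ⟩, rfl⟩, e⟩ := hU2 B h hBU _ ⟨c, ⟨hB B U hc, hQ B h1 h2 hc⟩, rfl⟩ (by
    rintro _ ⟨k, hk, rfl⟩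
    exact (Sup.comm hDU hc hk.1).map P.π)
  obtain ⟨-, l, hl, el⟩ := hQ B h1 h2 hg
  have m : ∀ σ τ : Perm ι, P.π σ (P.π τ ω) = P.π (σ * τ) ω := fun σ τ => by
    rw [map_mul, Perm.mul_apply]
  have f1 : P.π (k * g) ω = P.π (c * g) ω := by
    rw [← m, ← m, ← el, m, m, ← (Sup.comm disjoint_compl_right hl hkQ.1).eq,
      ← (Sup.comm disjoint_compl_right hl (hQ B h1 h2 hc).1).eq, ← m, ← m, e]
  rw [← (Sup.comm hDU hg hk).eq, ← m, e, m] at f1
  have f2 : c * g = g * (c * c) := by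
    calc c * g = c * g * (c * c * c) := by rw [e2, mul_one]
      _ = c * g * c * (c * c) := by group
      _ = _ := by rw [e1]
  rw [f2, ← m, ← m, ← m] at f1
  exact e3 ((P.π c).injective ((P.π g).injective f1)).symm

lemma signs (P : WS ι (Perm Ω)) (ω : Ω) (T : Finset Ω) {r : ℕ} (hω : ω ∈ T)
    (hT : ∀ a, ∀ x ∈ T, P.ε a x ∈ T) (hr : T.card < 2 ^ r) (X : Finset ι) (hX : r + 3 ≤ X.card)
    (hF : ∀ σ : Perm ι, Perm.sign σ = 1 → σ ∈ Sup X → P.π σ ω = ω) :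
    ∀ a ∈ X, ∀ b ∈ X, P.ε a (P.ε b ω) = ω := by
  let K : Finset ι → Subgroup (Perm Ω) := fun S =>
    { carrier := {k | (∀ x, k x ∈ T ↔ x ∈ T) ∧ (∀ a, Commute (P.ε a) k) ∧
        ∀ σ : Perm ι, (∀ a ∈ S, σ a = a) → Commute (P.π σ) k}
      mul_mem' := fun h h' => ⟨fun x => (h.1 _).trans (h'.1 x),
        fun a => (h.2.1 a).mul_right (h'.2.1 a), fun σ e => (h.2.2 σ e).mul_right (h'.2.2 σ e)⟩
      one_mem' := ⟨fun _ => Iff.rfl, fun _ => Commute.one_right _, fun _ _ => Commute.one_right _⟩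
      inv_mem' := fun h => ⟨fun x => by rw [← h.1]; simp, fun a => (h.2.1 a).inv_right,
        fun σ e => (h.2.2 σ e).inv_right⟩ }
  obtain ⟨I, hI, hI1, hI2⟩ := key K
    (fun _ _ h k hk => ⟨hk.1, hk.2.1, fun σ e => hk.2.2 σ fun a ha => e a (h ha)⟩) X ω T
    (fun U k hk => (hk.1 ω).2 hω) hr
  have third : ∀ x y z : ι, ∃ c ∈ X, c ∉ I ∧ c ≠ x ∧ c ≠ y ∧ c ≠ z := by
    intro x y z
    obtain ⟨c, h1, h2⟩ := Finset.exists_mem_notMem_of_card_lt_card
      (show (insert x (insert y (insert z I))).card < X.card by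
        have := Finset.card_insert_le x (insert y (insert z I))
        have := Finset.card_insert_le y (insert z I)
        have := Finset.card_insert_le z I
        omega)
    exact ⟨c, h1, by simpa [not_or, and_comm, and_assoc, and_left_comm] using h2⟩
  have cyc : ∀ x ∈ X, ∀ y ∈ X, ∀ z ∈ X, x ≠ y → z ≠ x → z ≠ y → ∃ σ : Perm ι, P.π σ ω = ω ∧
      σ x = y ∧ ∀ u, u ≠ x → u ≠ y → u ≠ z → σ u = u := fun x hx y hy z hz h1 h2 h3 =>
    ⟨swap x z * swap x y, hF _ (by simp [h1, h2.symm]) (mul_mem (Sup.swap hx hz) (Sup.swap hx hy)),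
      by simp [swap_apply_of_ne_of_ne h1.symm h3.symm],
      fun u a b c => by simp [swap_apply_of_ne_of_ne, a, b, c]⟩
  have h1 : ∀ a ∈ X, a ∉ I → ∀ b ∈ X, b ∉ I → P.ε b ω = P.ε a ω := by
    intro a ha ha' b hb hb'
    by_cases e : a = b
    · rw [e]
    obtain ⟨k, hk, ek⟩ := hI2 a ha ha' (P.ε a) ⟨fun x => ⟨fun h => eps_eps P a x ▸ hT a _ h,
      hT a x⟩, fun b => P.ε_comm b a, fun σ e => by
        rw [Commute, SemiconjBy, P.π_ε, e a (Finset.mem_insert_self _ _)]⟩ fun k hk => hk.2.1 a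
    obtain ⟨c, hc, hc', c1, c2, -⟩ := third a b b
    obtain ⟨σ, s1, s2, s3⟩ := cyc a ha b hb c hc e c1 c2
    have := DFunLike.congr_fun (hk.2.2 σ fun u hu => s3 u (fun e => ha' (e ▸ hu))
      (fun e => hb' (e ▸ hu)) fun e => hc' (e ▸ hu)).eq ω
    rwa [Perm.mul_apply, Perm.mul_apply, s1, ek, pi_eps, s1, s2] at this
  have h2 : ∀ d ∈ X, ∀ b ∈ X, b ∉ I → P.ε d ω = P.ε b ω := by
    intro d hd b hb hb'
    by_cases e : d = b
    · rw [e]
    obtain ⟨a, ha, ha', a1, a2, -⟩ := third d b b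
    obtain ⟨c, hc, -, c1, c2, c3⟩ := third a d b
    obtain ⟨σ, s1, s2, s3⟩ := cyc a ha d hd c hc a1 c1 c2
    have := congrArg (P.π σ) (h1 b hb hb' a ha ha')
    rwa [pi_eps, pi_eps, s1, s2, s3 b a2.symm (Ne.symm e) c3.symm] at this
  intro a ha b hb
  obtain ⟨c, hc, hc', -⟩ := third a a a
  rw [h2 b hb c hc hc', ← h2 a ha c hc hc', eps_eps]

theorem sli : SLI := by
  classical
  intro ι Ω _ _ P ω T r hω h1 h2 hr hn
  obtain ⟨J, hJ, hM⟩ := (Finset.univ.filter fun J : Finset (Finset ι) => (∀ B ∈ J, Bad P ω B) ∧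
    ∀ B ∈ J, ∀ B' ∈ J, B ≠ B' → Disjoint B B').exists_max_image Finset.card ⟨∅, by simp⟩
  simp only [Finset.mem_filter, Finset.mem_univ, true_and] at hJ hM
  have h3 := few P ω T (fun σ => h1 σ ω hω) hr J hJ.1 hJ.2
  have h4 := Finset.card_biUnion_le_card_mul J id 3 fun B h => (hJ.1 B h).1
  have h5 : r + 3 ≤ (J.biUnion id)ᶜ.card := by
    rw [Finset.card_compl]
    omega
  have h6 : ∀ σ : Perm ι, Perm.sign σ = 1 → σ ∈ Sup (J.biUnion id)ᶜ → P.π σ ω = ω := by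
    intro σ hs hσ
    obtain ⟨a, ha, b, hb, hab⟩ := Finset.one_lt_card.1 (show 1 < (J.biUnion id)ᶜ.card by omega)
    refine gen (Stab P ω) hab (fun c hc hca => ?_) σ hσ hs
    by_cases e : c = b
    · simp [e]
    by_contra hx
    have hd : ∀ B ∈ J, Disjoint {a, b, c} B := fun B h => Finset.disjoint_left.2 fun u hu hu' => by
      have : u ∈ (J.biUnion id)ᶜ := by
        simp only [Finset.mem_insert, Finset.mem_singleton] at hu
        rcases hu with rfl | rfl | rfl <;> assumption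
      exact Finset.mem_compl.1 this (Finset.mem_biUnion.2 ⟨B, h, hu'⟩)
    have := hM (insert {a, b, c} J) ⟨fun B h => by
      rcases Finset.mem_insert.1 h with rfl | h
      · refine ⟨Finset.card_le_three, _, mul_mem (Sup.swap (by simp) (by simp))
          (Sup.swap (by simp) (by simp)), swap a b, Sup.swap (by simp) (by simp), ?_, ?_, hx⟩
        · simp [mul_assoc]
        · have t := (Perm.isThreeCycle_swap_mul_swap_same hab hca.symm (Ne.symm e)).orderOf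
          rw [← pow_three', ← t, pow_orderOf_eq_one]
      · exact hJ.1 B h, fun B h B' h' hne => by
      rcases Finset.mem_insert.1 h with rfl | h <;> rcases Finset.mem_insert.1 h' with rfl | h'
      exacts [(hne rfl).elim, hd _ h', (hd _ h).symm, hJ.2 B h B' h' hne]⟩
    rw [Finset.card_insert_of_notMem fun h => by simpa using hd _ h] at this
    omega
  exact ⟨(J.biUnion id)ᶜ, by rw [compl_compl]; omega, h6, signs P ω T hω h2 hr _ h5 h6⟩

lemma fx_union (P : WS ι (Perm Ω)) {ω : Ω} {X Y : Finset ι} (hX : Fx P ω X) (hY : Fx P ω Y)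
    (h : 1 < (X ∩ Y).card) : Fx P ω (X ∪ Y) := by
  obtain ⟨a, ha, b, hb, hab⟩ := Finset.one_lt_card.1 h
  rw [Finset.mem_inter] at ha hb
  have k : ∀ c ∈ X ∪ Y, P.ε c (P.ε a ω) = ω := fun c hc =>
    (Finset.mem_union.1 hc).elim (fun h => hX.2 c h a ha.1) fun h => hY.2 c h a ha.2
  refine ⟨fun σ hs hσ => gen (Stab P ω) hab (fun c hc hca => ?_) σ hσ hs, fun c hc d hd => ?_⟩
  · have s : Perm.sign (swap a b * swap a c) = 1 := by simp [hab, hca.symm]
    exact (Finset.mem_union.1 hc).elim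
      (fun h => hX.1 _ s (mul_mem (Sup.swap ha.1 hb.1) (Sup.swap ha.1 h)))
      fun h => hY.1 _ s (mul_mem (Sup.swap ha.2 hb.2) (Sup.swap ha.2 h))
  · conv_lhs => rw [← k d hd, eps_eps, k c hc]

lemma fx_pi (P : WS ι (Perm Ω)) {ω : Ω} {X : Finset ι} (h : Fx P ω X) (σ : Perm ι) :
    Fx P (P.π σ ω) (X.map σ.toEmbedding) := by
  refine ⟨fun τ hs hτ => ?_, fun a ha b hb => ?_⟩
  · have := h.1 (σ⁻¹ * τ * σ) (by simp [hs]) fun a ha => by
      rw [Perm.mul_apply, Perm.mul_apply, hτ _ (by simpa using ha)]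
      simp
    rwa [map_mul, map_mul, map_inv, Perm.mul_apply, Perm.mul_apply, Perm.inv_eq_iff_eq] at this
  · obtain ⟨a', ha', rfl⟩ := Finset.mem_map.1 ha
    obtain ⟨b', hb', rfl⟩ := Finset.mem_map.1 hb
    simp only [coe_toEmbedding]
    rw [← pi_eps, ← pi_eps, h.2 a' ha' b' hb']

lemma fx_eps (P : WS ι (Perm Ω)) {ω : Ω} {X : Finset ι} (h : Fx P ω X) (a : ι) :
    Fx P (P.ε a ω) X := by
  have c : ∀ a b x, P.ε a (P.ε b x) = P.ε b (P.ε a x) := fun a b x =>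
    DFunLike.congr_fun (P.ε_comm a b) x
  refine ⟨fun τ hs hτ => ?_, fun b hb d hd => by rw [c d, c b, h.2 b hb d hd]⟩
  rw [pi_eps, h.1 τ hs hτ]
  by_cases ha : a ∈ X
  · conv_lhs => rw [← h.2 _ (Sup.app hτ ha) a ha, eps_eps]
  · rw [hτ a ha]

theorem ssupp : SSupp := by
  classical
  intro ι Ω _ _ P k hk h
  let s : Ω → Finset ι := fun ω =>
    Finset.univ.filter fun a => ¬∃ X : Finset ι, k + 3 ≤ X.card ∧ Fx P ω X ∧ a ∈ X
  have hs : ∀ ω a, a ∈ s ω ↔ ¬∃ X : Finset ι, k + 3 ≤ X.card ∧ Fx P ω X ∧ a ∈ X := by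
    simp only [s, Finset.mem_filter, Finset.mem_univ, true_and, implies_true]
  have h1 : ∀ ω, (s ω).card < k ∧ Fx P ω (s ω)ᶜ := by
    intro ω
    obtain ⟨M, hM, hM'⟩ := (Finset.univ.filter fun X : Finset ι =>
      Xᶜ.card < k ∧ Fx P ω X).exists_max_image Finset.card (by simpa [Finset.Nonempty] using h ω)
    simp only [Finset.mem_filter, Finset.mem_univ, true_and] at hM hM'
    have c := Finset.card_compl M
    have e : s ω = Mᶜ := by
      ext a
      rw [hs, Finset.mem_compl, not_iff_not]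
      refine ⟨fun ⟨X, x1, x2, x3⟩ => ?_, fun ha => ⟨M, by omega, hM.2, ha⟩⟩
      have u := Finset.card_union_add_card_inter M X
      have u' := Finset.card_le_univ (M ∪ X)
      have := hM' (M ∪ X) ⟨(Finset.card_le_card
        (Finset.compl_subset_compl.2 Finset.subset_union_left)).trans_lt hM.1,
        fx_union P hM.2 x2 (by omega)⟩
      rw [Finset.eq_of_subset_of_card_le Finset.subset_union_left this]
      exact Finset.mem_union_right _ x3
    rw [e, compl_compl]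
    exact hM
  refine ⟨s, fun ω => (h1 ω).1, fun ω => (h1 ω).2,
    fun ω X a b => Finset.disjoint_left.2 fun c hc hc' => (hs ω c).1 hc ⟨X, a, b, hc'⟩,
    fun σ ω => ?_, fun a ω => ?_⟩
  · ext a
    rw [Finset.mem_map_equiv, hs, hs, not_iff_not]
    refine ⟨fun ⟨X, x1, x2, x3⟩ => ⟨X.map σ⁻¹.toEmbedding, by simpa, ?_,
      Finset.mem_map.2 ⟨a, x3, rfl⟩⟩,
      fun ⟨X, x1, x2, x3⟩ => ⟨X.map σ.toEmbedding, by simpa, fx_pi P x2 σ, by simpa⟩⟩
    simpa using fx_pi P x2 σ⁻¹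
  · ext b
    rw [hs, hs, not_iff_not]
    exact ⟨fun ⟨X, x1, x2, x3⟩ => ⟨X, x1, eps_eps P a ω ▸ fx_eps P x2 a, x3⟩,
      fun ⟨X, x1, x2, x3⟩ => ⟨X, x1, fx_eps P x2 a, x3⟩⟩

end Pool.Agent.MP_3ce0a0_al.H5
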