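import Pool.Agent.MP_3ce0a0_al.H79.XS
import Pool.Agent.MP_3ce0a0_al.H81.Gr

/-
Two commuting elements of finite order, edges, and faithfulness.
-/

namespace Pool.Agent.MP_3ce0a0_al.H79.X

open Equiv Module Finset Pool.Agent.MP_3ce0a0_al.H81

namespace GK

section graph
variable {V E : Type} {o t : E → V}

lemma lnk_mono {P P' : E → Prop} (h : ∀ e, P e → P' e) {u v : V} (k : Lnk o t P u v) :
    Lnk o t P' u v := by
  induction k with
  | refl => exact Relation.ReflTransGen.refl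
  | tail _ hbc ih =>
    obtain ⟨e, he, h'⟩ := hbc
    exact ih.tail ⟨e, h e he, h'⟩

lemma lnk_symm {P : E → Prop} {u v : V} (k : Lnk o t P u v) : Lnk o t P v u := by
  induction k with
  | refl => exact Relation.ReflTransGen.refl
  | tail _ hbc ih =>
    obtain ⟨e, he, h'⟩ := hbc
    exact Relation.ReflTransGen.head ⟨e, he, h'.symm⟩ ih

lemma lnk_up {P : E → Prop} {u v : V} (k : Lnk o t P u v) :
    Lnk o t (fun e => P e ∧ Lnk o t P u (o e)) u v := by
  induction k with
  | refl => exact Relation.ReflTransGen.refl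
  | tail hab hbc ih =>
    obtain ⟨e, he, h' | h'⟩ := hbc
    · exact ih.tail ⟨e, ⟨he, h'.1 ▸ hab⟩, Or.inl h'⟩
    · exact ih.tail ⟨e, ⟨he, h'.1 ▸ Relation.ReflTransGen.tail hab ⟨e, he, Or.inr h'⟩⟩, Or.inr h'⟩

lemma lnk_sub {iV : V → Prop} {iE : E → Prop} (hi : ∀ e, iE e → iV (o e) ∧ iV (t e))
    {u v : V} (k : Lnk o t iE u v) (hu : iV u) : ∃ hv : iV v,
      Lnk (fun e : {e // iE e} => (⟨o e.1, (hi _ e.2).1⟩ : {v // iV v}))
        (fun e : {e // iE e} => (⟨t e.1, (hi _ e.2).2⟩ : {v // iV v})) (fun _ => True)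
        ⟨u, hu⟩ ⟨v, hv⟩ := by
  induction k with
  | refl => exact ⟨hu, Relation.ReflTransGen.refl⟩
  | tail _ hbc ih =>
    obtain ⟨hb, ih⟩ := ih
    obtain ⟨e, he, h' | h'⟩ := hbc
    · exact ⟨h'.2 ▸ (hi e he).2, ih.tail ⟨⟨e, he⟩, trivial,
        Or.inl ⟨Subtype.ext h'.1, Subtype.ext h'.2⟩⟩⟩
    · exact ⟨h'.1 ▸ (hi e he).1, ih.tail ⟨⟨e, he⟩, trivial,
        Or.inr ⟨Subtype.ext h'.1, Subtype.ext h'.2⟩⟩⟩

open Classical in
lemma sum_sub [Fintype E] {iV : V → Prop} {iE : E → Prop} (f : E → V) (hf : ∀ e, iE e → iV (f e))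
    (c : E → ℂ) (hc : ∀ e, c e ≠ 0 → iE e) (v : {v // iV v}) :
    (∑ e : {e // iE e}, if (⟨f e.1, hf _ e.2⟩ : {v // iV v}) = v then c e.1 else 0) =
      ∑ e, if f e = v.1 then c e else 0 := by
  rw [← Fintype.sum_subtype_add_sum_subtype iE (fun e => if f e = v.1 then c e else 0),
    Finset.sum_eq_zero (s := univ) (f := fun e : {e // ¬ iE e} => if f e.1 = v.1 then c e.1 else 0)
      fun e _ => ?_, add_zero]
  · refine Finset.sum_congr rfl fun e _ => ?_
    simp [Subtype.ext_iff]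
  · have : c e.1 = 0 := by
      by_contra h
      exact e.2 (hc _ h)
    simp [this]

open Classical in
lemma sum_out [Fintype E] {iV : V → Prop} {iE : E → Prop} (f : E → V) (hf : ∀ e, iE e → iV (f e))
    (c : E → ℂ) (hc : ∀ e, c e ≠ 0 → iE e) (v : V) (hv : ¬ iV v) :
    (∑ e, if f e = v then c e else 0) = 0 := by
  refine Finset.sum_eq_zero fun e _ => ?_
  split_ifs with h
  · by_contra h'
    exact hv (h ▸ hf e (hc e h'))
  · rfl

open Classical in
lemma cyc_cut [Fintype E] {Ω : Type} (f : V → Ω) {c : E → ℂ} (hc : Cyc o t c)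
    (hf : ∀ e, c e ≠ 0 → f (o e) = f (t e)) (ω : Ω) :
    Cyc o t fun e => if f (o e) = ω then c e else 0 := by
  intro w
  by_cases hw : f w = ω
  · refine Eq.trans (Finset.sum_congr rfl fun e _ => ?_)
      ((hc w).trans (Finset.sum_congr rfl fun e _ => ?_))
    · by_cases h1 : t e = w
      · by_cases h2 : c e = 0
        · simp [h2]
        · simp [h1, hf e h2, hw]
      · simp [h1]
    · by_cases h1 : o e = w <;> simp [h1, hw]
  · rw [Finset.sum_eq_zero, Finset.sum_eq_zero]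
    · intro e _
      by_cases h1 : o e = w <;> simp [h1, hw]
    · intro e _
      by_cases h1 : t e = w
      · by_cases h2 : c e = 0
        · simp [h2]
        · simp [h1, hf e h2, hw]
      · simp [h1]

variable {H : Type} [AddCommGroup H] [Module ℂ H]

/-- classes supported on a set of edges. -/
def QP (j : H →ₗ[ℂ] (E → ℂ)) (P : E → Prop) : Submodule ℂ H where
  carrier := {h | ∀ e, j h e ≠ 0 → P e}
  zero_mem' := fun e he => (he (by simp)).elim
  add_mem' := fun {a b} ha hb e he => by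
    by_contra h
    have h1 : j a e = 0 := by by_contra k; exact h (ha e k)
    have h2 : j b e = 0 := by by_contra k; exact h (hb e k)
    exact he (by simp [h1, h2])
  smul_mem' := fun r a ha e he => ha e fun k => he (by simp [k])

lemma card_split {α : Type} [Finite α] (p q : α → Prop) :
    Nat.card {a // p a} = Nat.card {a // p a ∧ q a} + Nat.card {a // p a ∧ ¬ q a} := by
  classical
  have := Fintype.ofFinite α
  simp only [Nat.card_eq_fintype_card, Fintype.card_subtype]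
  rw [← Finset.card_filter_add_card_filter_not (s := univ.filter p) q, Finset.filter_filter,
    Finset.filter_filter]

variable [Fintype V] [Fintype E] [FiniteDimensional ℂ H] {j : H →ₗ[ℂ] (E → ℂ)}
  {gV : Perm V} {gE : Perm E} {μ : End ℂ H} {iV : V → Prop} {iE : E → Prop}

/-- the Lefschetz formula on a connected subgraph. -/
lemma lef (hj : Function.Injective j) (hc : ∀ c, c ∈ LinearMap.range j ↔ Cyc o t c)
    (ho : ∀ e, o (gE e) = gV (o e)) (ht : ∀ e, t (gE e) = gV (t e))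
    (hμ : ∀ h e, j (μ h) (gE e) = j h e) (hi : ∀ e, iE e → iV (o e) ∧ iV (t e))
    (hV : ∀ v, iV (gV v) ↔ iV v) (hE : ∀ e, iE (gE e) ↔ iE e) (hn : ∃ v, iV v)
    (hl : ∀ u v, iV u → iV v → Lnk o t iE u v) :
    (Nat.card {v // iV v ∧ gV v = v} : ℂ) - Nat.card {e // iE e ∧ gE e = e} =
      1 - trOn μ (QP j iE) := by
  classical
  have hk : ∀ v ∈ QP j iE, μ v ∈ QP j iE := by
    intro v hv e he
    obtain ⟨e, rfl⟩ := gE.surjective e
    rw [hμ] at he
    exact (hE e).2 (hv e he)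
  have hinj : Function.Injective (μ.restrict hk) := by
    intro a b h
    refine Subtype.ext (hj (funext fun e => ?_))
    rw [← hμ, ← hμ b.1]
    exact congrArg (fun z : QP j iE => j z.1 (gE e)) h
  let j' : QP j iE →ₗ[ℂ] ({e // iE e} → ℂ) :=
    LinearMap.funLeft ℂ ℂ Subtype.val ∘ₗ j ∘ₗ (QP j iE).subtype
  have key := slef {v // iV v} {e // iE e} (QP j iE) (fun e => ⟨o e.1, (hi _ e.2).1⟩)
    (fun e => ⟨t e.1, (hi _ e.2).2⟩) j' (gV.subtypePerm hV) (gE.subtypePerm hE)
    (LinearEquiv.ofInjectiveEndo _ hinj) (fun e => Subtype.ext (ho e.1))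
    (fun e => Subtype.ext (ht e.1)) (by obtain ⟨v, hv⟩ := hn; exact ⟨⟨v, hv⟩⟩)
    (fun u v => (lnk_sub hi (hl _ _ u.2 v.2) u.2).2) ?_ ?_ (fun h e => hμ h.1 e.1)
  · have e1 : Nat.card {e // gE.subtypePerm hE e = e} = Nat.card {e // iE e ∧ gE e = e} :=
      Nat.card_congr ((Equiv.subtypeEquivRight fun e => Subtype.ext_iff).trans
        (Equiv.subtypeSubtypeEquivSubtypeInter iE fun e => gE e = e))
    have e2 : Nat.card {v // gV.subtypePerm hV v = v} = Nat.card {v // iV v ∧ gV v = v} :=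
      Nat.card_congr ((Equiv.subtypeEquivRight fun e => Subtype.ext_iff).trans
        (Equiv.subtypeSubtypeEquivSubtypeInter iV fun v => gV v = v))
    rw [e1, e2] at key
    rw [key, trOn, dif_pos hk]
    rfl
  · intro a b h
    refine Subtype.ext (hj (funext fun e => ?_))
    by_cases he : iE e
    · exact congrFun h ⟨e, he⟩
    · have h1 : j a.1 e = 0 := by by_contra k; exact he (a.2 e k)
      have h2 : j b.1 e = 0 := by by_contra k; exact he (b.2 e k)
      rw [h1, h2]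
  · intro c
    constructor
    · rintro ⟨h, rfl⟩ v
      have h1 := sum_sub t (fun e he => (hi e he).2) (j h.1) h.2 v
      have h2 := sum_sub o (fun e he => (hi e he).1) (j h.1) h.2 v
      have h3 := (hc _).1 ⟨h.1, rfl⟩ v.1
      rw [← h1, ← h2] at h3
      refine Eq.trans ?_ (h3.trans ?_) <;> refine Finset.sum_congr rfl fun e _ => ?_ <;>
        split_ifs <;> rfl
    · intro hcy
      have hs := GrAux.ext_supp (p := iE) c
      obtain ⟨h, hh⟩ := (hc (GrAux.ext iE c)).2 fun v => by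
        by_cases hv : iV v
        · have h1 := sum_sub t (fun e he => (hi e he).2) _ hs ⟨v, hv⟩
          have h2 := sum_sub o (fun e he => (hi e he).1) _ hs ⟨v, hv⟩
          refine h1.symm.trans (Eq.trans ?_ h2)
          refine Eq.trans ?_ ((hcy ⟨v, hv⟩).trans ?_) <;>
            refine Finset.sum_congr rfl fun e _ => ?_ <;> rw [GrAux.ext_pos c e.2] <;>
            split_ifs <;> rfl
        · exact (sum_out t (fun e he => (hi e he).2) _ hs v hv).trans
            (sum_out o (fun e he => (hi e he).1) _ hs v hv).symm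
      refine ⟨⟨h, fun e he => hs e (hh ▸ he)⟩, funext fun e => ?_⟩
      change j h e.1 = c e
      rw [hh, GrAux.ext_pos c e.2]

lemma lef_fix (hj : Function.Injective j) (hc : ∀ c, c ∈ LinearMap.range j ↔ Cyc o t c)
    (ho : ∀ e, o (gE e) = gV (o e)) (ht : ∀ e, t (gE e) = gV (t e))
    (hμ : ∀ h e, j (μ h) (gE e) = j h e) (hi : ∀ e, iE e → iV (o e) ∧ iV (t e))
    (hV : ∀ v, iV (gV v) ↔ iV v) (hE : ∀ e, iE (gE e) ↔ iE e) (hn : ∃ v, iV v)
    (hl : ∀ u v, iV u → iV v → Lnk o t iE u v) (h1 : trOn μ (QP j iE) ≠ 1) :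
    ∃ v, iV v ∧ gV v = v := by
  by_contra h
  have key := lef hj hc ho ht hμ hi hV hE hn hl
  have e1 : IsEmpty {v // iV v ∧ gV v = v} := ⟨fun v => h ⟨v.1, v.2⟩⟩
  have e2 : IsEmpty {e // iE e ∧ gE e = e} :=
    ⟨fun e => h ⟨o e.1, (hi _ e.2.1).1, by rw [← ho, e.2.2]⟩⟩
  rw [Nat.card_of_isEmpty, Nat.card_of_isEmpty] at key
  exact h1 (by linear_combination key)

omit [Fintype V] [Fintype E] in
lemma trOn_id {Q : Submodule ℂ H} (h : ∀ v ∈ Q, μ v = v) : trOn μ Q = finrank ℂ Q := by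
  have hk : ∀ v ∈ Q, μ v ∈ Q := fun v hv => (h v hv).symm ▸ hv
  have : μ.restrict hk = LinearMap.id := LinearMap.ext fun v => Subtype.ext (h v.1 v.2)
  rw [trOn, dif_pos hk, this, LinearMap.trace_id]

omit [FiniteDimensional ℂ H] in
lemma euler (hj : Function.Injective j) (hc : ∀ c, c ∈ LinearMap.range j ↔ Cyc o t c)
    (hi : ∀ e, iE e → iV (o e) ∧ iV (t e)) (hn : ∃ v, iV v) :
    Nat.card {e // iE e} + 1 ≤ Nat.card {v // iV v} + finrank ℂ (QP j iE) := by
  rw [(Submodule.equivMapOfInjective j hj (QP j iE)).finrank_eq]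
  refine GrAux.gr4 o t iV iE _ hi hn fun c h1 h2 => ?_
  obtain ⟨h, rfl⟩ := (hc c).2 h1
  exact ⟨h, h2, rfl⟩

/-- a map that fixes a vertex and all cycles. -/
lemma triv (hj : Function.Injective j) (hc : ∀ c, c ∈ LinearMap.range j ↔ Cyc o t c)
    (ho : ∀ e, o (gE e) = gV (o e)) (ht : ∀ e, t (gE e) = gV (t e))
    (hμ : ∀ h e, j (μ h) (gE e) = j h e) (hi : ∀ e, iE e → iV (o e) ∧ iV (t e))
    (hV : ∀ v, iV (gV v) ↔ iV v) (hE : ∀ e, iE (gE e) ↔ iE e)
    (hl : ∀ u v, iV u → iV v → Lnk o t iE u v) (h1 : ∀ h ∈ QP j iE, μ h = h) {v : V}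
    (hv : iV v) (hv' : gV v = v) :
    (∀ u, iV u → gV u = u → Lnk o t (fun e => gE e = e) v u) ∧
      ∀ h ∈ QP j iE, ∀ e, j h e ≠ 0 → gE e = e := by
  have key := lef hj hc ho ht hμ hi hV hE ⟨v, hv⟩ hl
  rw [trOn_id h1] at key
  have key' : Nat.card {v // iV v ∧ gV v = v} + finrank ℂ (QP j iE) =
      Nat.card {e // iE e ∧ gE e = e} + 1 := by
    have : ((Nat.card {v // iV v ∧ gV v = v} + finrank ℂ (QP j iE) : ℕ) : ℂ) =
        ((Nat.card {e // iE e ∧ gE e = e} + 1 : ℕ) : ℂ) := by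
      push_cast
      linear_combination key
    exact_mod_cast this
  set F : E → Prop := fun e => iE e ∧ gE e = e with hF
  have hf : ∀ e, F e → (iV (o e) ∧ gV (o e) = o e) ∧ (iV (t e) ∧ gV (t e) = t e) := fun e he =>
    ⟨⟨(hi e he.1).1, by rw [← ho, he.2]⟩, (hi e he.1).2, by rw [← ht, he.2]⟩
  have hlk : ∀ e, F e → (Lnk o t F v (o e) ↔ Lnk o t F v (t e)) := fun e he =>
    ⟨fun a => a.tail ⟨e, he, Or.inl ⟨rfl, rfl⟩⟩, fun a => a.tail ⟨e, he, Or.inr ⟨rfl, rfl⟩⟩⟩
  have s1 := card_split (fun u => iV u ∧ gV u = u) (fun u => Lnk o t F v u)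
  have s2 : Nat.card {e // F e} = Nat.card {e // F e ∧ Lnk o t F v (o e)} +
      Nat.card {e // F e ∧ ¬ Lnk o t F v (o e)} := card_split F _
  replace key' : Nat.card {v // iV v ∧ gV v = v} + finrank ℂ (QP j iE) =
      Nat.card {e // F e} + 1 := key'
  have c1 := euler (iV := fun u => (iV u ∧ gV u = u) ∧ Lnk o t F v u)
    (iE := fun e => F e ∧ Lnk o t F v (o e)) hj hc
    (fun e he => ⟨⟨(hf e he.1).1, he.2⟩, (hf e he.1).2, (hlk e he.1).1 he.2⟩)
    ⟨v, ⟨hv, hv'⟩, Relation.ReflTransGen.refl⟩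
  have l1 : QP j (fun e => F e ∧ Lnk o t F v (o e)) ≤ QP j iE := fun h hh e he => (hh e he).1.1
  have l2 : QP j (fun e => F e ∧ ¬ Lnk o t F v (o e)) ≤ QP j iE := fun h hh e he => (hh e he).1.1
  have hall : ∀ u, iV u → gV u = u → Lnk o t F v u := by
    intro u hu hu'
    by_contra hnl
    have c2 := euler (iV := fun u => (iV u ∧ gV u = u) ∧ ¬ Lnk o t F v u)
      (iE := fun e => F e ∧ ¬ Lnk o t F v (o e)) hj hc
      (fun e he => ⟨⟨(hf e he.1).1, he.2⟩, (hf e he.1).2, fun a => he.2 ((hlk e he.1).2 a)⟩)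
      ⟨u, ⟨hu, hu'⟩, hnl⟩
    have d := Submodule.finrank_sup_add_finrank_inf_eq (QP j fun e => F e ∧ Lnk o t F v (o e))
      (QP j fun e => F e ∧ ¬ Lnk o t F v (o e))
    have d0 : (QP j fun e => F e ∧ Lnk o t F v (o e)) ⊓
        (QP j fun e => F e ∧ ¬ Lnk o t F v (o e)) = ⊥ := by
      rw [eq_bot_iff]
      intro h hh
      refine (Submodule.mem_bot _).2 (hj (funext fun e => ?_))
      rw [map_zero]
      by_contra k
      exact (hh.2 e k).2 (hh.1 e k).2
    rw [d0, finrank_bot] at d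
    have d1 := Submodule.finrank_mono (sup_le l1 l2)
    omega
  refine ⟨fun u hu hu' => lnk_mono (fun e he => he.2) (hall u hu hu'), fun h hh e he => ?_⟩
  have e1 : IsEmpty {e // F e ∧ ¬ Lnk o t F v (o e)} :=
    ⟨fun e => e.2.2 (hall _ (hf _ e.2.1).1.1 (hf _ e.2.1).1.2)⟩
  have e2 : IsEmpty {u // (iV u ∧ gV u = u) ∧ ¬ Lnk o t F v u} :=
    ⟨fun u => u.2.2 (hall _ u.2.1.1 u.2.1.2)⟩
  rw [Nat.card_of_isEmpty (α := {e // F e ∧ ¬ Lnk o t F v (o e)})] at s2
  rw [Nat.card_of_isEmpty (α := {u // (iV u ∧ gV u = u) ∧ ¬ Lnk o t F v u})] at s1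
  have := Submodule.eq_of_le_of_finrank_le l1 (by omega)
  rw [← this] at hh
  exact (hh e he).1.2

end graph

end GK

open GK

theorem sgeoK (_h : SGeoL) : SGeoK := by
  intro H _ _ _ O _ π G
  classical
  refine ⟨fun g y hg hy hgy => ?_, fun K hK => ?_, fun h2 g hg h1 => ?_⟩
  · have : Finite (Subgroup.zpowers g) := finite_zpowers.2 hg
    have : Finite (Subgroup.zpowers y) := finite_zpowers.2 hy
    let φ := MonoidHom.noncommCoprod (Subgroup.zpowers g).subtype (Subgroup.zpowers y).subtype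
      (fun ⟨_, a, ha⟩ ⟨_, b, hb⟩ => by
        simp only [Subgroup.coe_subtype]
        rw [← ha, ← hb]
        exact hgy.zpow_zpow a b)
    have hK : Finite φ.range := Finite.of_surjective _ φ.rangeRestrict_surjective
    obtain ⟨V, E, _, _, _, _, o, t, j, q, ho, ht, -, -, -, hj, hc, hμ, -, q1, q2, q3, q4, q5⟩ :=
      G.real φ.range hK
    let g' : φ.range := ⟨g, (⟨g, Subgroup.mem_zpowers g⟩, 1), by simp [φ]⟩
    let y' : φ.range := ⟨y, (1, ⟨y, Subgroup.mem_zpowers y⟩), by simp [φ]⟩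
    have hc' : Commute g' y' := Subtype.ext hgy
    have hi : ∀ (a : φ.range) ω e, (a • e = e ∧ q a (o e) = ω) →
        (a • o e = o e ∧ q a (o e) = ω) ∧ (a • t e = t e ∧ q a (t e) = ω) := by
      intro a ω e he
      have h1 : a • o e = o e := by rw [← ho, he.1]
      have h2 : a • t e = t e := by rw [← ht, he.1]
      refine ⟨⟨h1, he.2⟩, h2, ?_⟩
      rw [← he.2]
      exact ((q3 a _ _ h1 h2).2 (Relation.ReflTransGen.single ⟨e, he.1, Or.inl ⟨rfl, rfl⟩⟩)).symm
    have hl : ∀ (a : φ.range) ω u v, (a • u = u ∧ q a u = ω) → (a • v = v ∧ q a v = ω) →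
        Lnk o t (fun e => a • e = e ∧ q a (o e) = ω) u v := by
      intro a ω u v hu hv
      refine lnk_mono (fun e he => ⟨he.1, ?_⟩)
        (lnk_up ((q3 a u v hu.1 hv.1).1 (hu.2.trans hv.2.symm)))
      rw [← hu.2]
      exact ((q3 a _ _ hu.1 (by rw [← ho, he.1])).2 he.2).symm
    have hq : ∀ a b : φ.range, Commute a b → ∀ v, a • v = v →
        G.act b (q a v) = q a (b • v) := by
      intro a b hab v hv
      rw [q4 b a v hv, ← hab.eq, mul_inv_cancel_right]
    have hV : ∀ a b : φ.range, Commute a b → ∀ ω, G.act b ω = ω → ∀ v,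
        (a • b • v = b • v ∧ q a (b • v) = ω) ↔ (a • v = v ∧ q a v = ω) := by
      intro a b hab ω hω v
      rw [← mul_smul, hab.eq, mul_smul, smul_left_cancel_iff]
      refine and_congr_right fun hv => ?_
      rw [← hq a b hab v hv]
      conv_lhs => rw [← hω]
      exact (G.act b).injective.eq_iff
    have hE : ∀ a b : φ.range, Commute a b → ∀ ω, G.act b ω = ω → ∀ e,
        (a • b • e = b • e ∧ q a (o (b • e)) = ω) ↔ (a • e = e ∧ q a (o e) = ω) := by
      intro a b hab ω hω e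
      rw [← mul_smul, hab.eq, mul_smul, smul_left_cancel_iff]
      refine and_congr_right fun he => ?_
      rw [ho, ← hq a b hab _ (by rw [← ho, he])]
      conv_lhs => rw [← hω]
      exact (G.act b).injective.eq_iff
    have hΦ : ∀ (a : φ.range) ω, G.ov ω = a →
        G.Φ ω = QP j fun e => a • e = e ∧ q a (o e) = ω :=
      fun a ω hω => Submodule.ext fun h => q5 a ω hω h
    have fix : ∀ a b : φ.range, Commute a b → ∀ ω, G.ov ω = a → G.act b ω = ω →
        trOn (π b) (G.Φ ω) ≠ 1 → ∃ v, (a • v = v ∧ q a v = ω) ∧ b • v = v := by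
      intro a b hab ω h1 h2 h3
      rw [hΦ a ω h1] at h3
      exact lef_fix (gV := MulAction.toPerm b) (gE := MulAction.toPerm b) hj hc (ho b) (ht b)
        (hμ b) (hi a ω) (hV a b hab ω h2) (hE a b hab ω h2) (q2 a ω h1) (hl a ω) h3
    refine ⟨fun ω ω' => ∃ v, g' • v = v ∧ y' • v = v ∧ q g' v = ω ∧ q y' v = ω', ?_, ?_, ?_⟩
    · intro ω h1 h2 h3
      obtain ⟨v, hv, hv'⟩ := fix g' y' hc' ω h1 h2 h3
      exact ⟨q y' v, q1 y' v hv', v, hv.1, hv', hv.2, rfl⟩
    · intro ω h1 h2 h3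
      obtain ⟨v, hv, hv'⟩ := fix y' g' hc'.symm ω h1 h2 h3
      exact ⟨q g' v, q1 g' v hv', v, hv', hv.1, rfl, hv.2⟩
    · rintro ω ω' h1 ⟨v, v1, v2, v3, v4⟩ h2 h hh
      have h3 : G.act y' ω = ω := by rw [← v3, hq g' y' hc' v v1, v2]
      rw [hΦ g' ω h1] at h2 hh
      obtain ⟨k1, k2⟩ := triv (gV := MulAction.toPerm y') (gE := MulAction.toPerm y') (μ := π y)
        hj hc (ho y') (ht y') (hμ y') (hi g' ω) (hV g' y' hc' ω h3) (hE g' y' hc' ω h3)
        (hl g' ω) h2 ⟨v1, v3⟩ v2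
      refine (q5 y' ω' (v4 ▸ q1 y' v v2) h).2 fun e he => ⟨k2 h hh e he, ?_⟩
      have e1 : y' • o e = o e := by rw [← ho]; exact congrArg o (k2 h hh e he)
      rw [← v4]
      exact ((q3 y' v _ v2 e1).2 (k1 _ (hi g' ω e (hh e he)).1 e1)).symm
  · obtain ⟨V, E, _, _, _, _, o, t, j, q, ho, ht, -, -, -, hj, hc, -, -, q1, -, q3, -, q5⟩ :=
      G.real K hK
    refine ⟨E, inferInstance, fun e => LinearMap.proj e ∘ₗ j,
      fun e => (MulAction.stabilizer K e).map K.subtype, fun g hg v => ?_⟩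
    let a : K := ⟨g, hg⟩
    have hst : ∀ e : E, g ∈ (MulAction.stabilizer K e).map K.subtype ↔ a • e = e := by
      refine fun e => ⟨?_, fun h => ⟨a, h, rfl⟩⟩
      rintro ⟨b, hb, hb'⟩
      obtain rfl : b = a := Subtype.ext hb'
      exact hb
    have iff1 : (∀ e : E, g ∉ (MulAction.stabilizer K e).map K.subtype →
        (LinearMap.proj e ∘ₗ j) v = 0) ↔ v ∈ QP j fun e => a • e = e :=
      forall_congr' fun e => by rw [hst]; exact not_imp_comm
    rw [iff1]
    constructor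
    · intro hv
      refine (show G.Φt g ≤ QP j fun e => a • e = e from ?_) hv
      exact iSup_le fun ω => iSup_le fun hω h hh e he => ((q5 a ω hω h).1 hh e he).1
    · intro hv
      have hot : ∀ e, j v e ≠ 0 → q a (o e) = q a (t e) := fun e he =>
        (q3 a _ _ (by rw [← ho, hv e he]) (by rw [← ht, hv e he])).2
          (Relation.ReflTransGen.single ⟨e, hv e he, Or.inl ⟨rfl, rfl⟩⟩)
      choose w hw using fun ω => (hc _).2 (cyc_cut (q a) ((hc _).1 ⟨v, rfl⟩) hot ω)
      have hs : v = ∑ ω ∈ (univ.filter fun e => a • e = e).image fun e => q a (o e), w ω := by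
        refine hj (funext fun e => ?_)
        rw [map_sum, Finset.sum_apply]
        simp only [hw]
        by_cases he : j v e = 0
        · simp [he]
        · rw [Finset.sum_eq_single (q a (o e)) (fun b _ hb => if_neg (Ne.symm hb))
            (fun h => (h (Finset.mem_image.2 ⟨e, by simpa using hv e he, rfl⟩)).elim), if_pos rfl]
      rw [hs]
      refine Submodule.sum_mem _ fun ω hω => ?_
      obtain ⟨e, he, rfl⟩ := Finset.mem_image.1 hω
      have h1 := q1 a (o e) (by rw [← ho, (Finset.mem_filter.1 he).2])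
      refine Submodule.mem_iSup_of_mem _ (Submodule.mem_iSup_of_mem h1 ?_)
      refine (q5 a _ h1 _).2 fun e' he' => ?_
      rw [hw] at he'
      obtain ⟨b, c⟩ := ite_ne_right_iff.1 he'
      exact ⟨hv e' c, b⟩
  · obtain ⟨V, E, _, _, _, _, o, t, j, q, ho, ht, ⟨v₀⟩, hl, hval, hj, hc, hμ, hf, -⟩ :=
      G.real (Subgroup.zpowers g) (finite_zpowers.2 hg)
    let a : Subgroup.zpowers g := ⟨g, Subgroup.mem_zpowers g⟩
    have htop : (QP j fun _ => True) = ⊤ := eq_top_iff.2 fun _ _ _ _ => trivial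
    have hid : ∀ h ∈ (QP j fun _ => True), π g h = h := fun h _ => by rw [h1]; rfl
    obtain ⟨v, -, hv⟩ := lef_fix (gV := MulAction.toPerm a) (gE := MulAction.toPerm a) (μ := π g)
      (iV := fun _ => True) (iE := fun _ => True) hj hc (ho a) (ht a) (hμ a)
      (fun _ _ => ⟨trivial, trivial⟩) (fun _ => Iff.rfl) (fun _ => Iff.rfl) ⟨v₀, trivial⟩
      (fun u v _ _ => hl u v) (by
        rw [trOn_id hid, htop, finrank_top]
        intro h
        have : finrank ℂ H = 1 := by exact_mod_cast h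
        omega)
    obtain ⟨k1, k2⟩ := triv (gV := MulAction.toPerm a) (gE := MulAction.toPerm a) (μ := π g)
      (iV := fun _ => True) (iE := fun _ => True) hj hc (ho a) (ht a) (hμ a)
      (fun _ _ => ⟨trivial, trivial⟩) (fun _ => Iff.rfl) (fun _ => Iff.rfl)
      (fun u v _ _ => hl u v) hid trivial hv
    have hall := GrAux.gr3 o t (fun u => ¬ a • u = u) (fun e => ¬ a • e = e)
      (fun e he h => he.elim (fun k => k (by rw [← ho, h])) fun k => k (by rw [← ht, h])) hl
      ⟨v, not_not.2 hv⟩ hval fun c c1 c2 => by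
        obtain ⟨c', h3, h4⟩ := GrAux.gr1 o t (fun u => a • u = u) (fun e => a • e = e) c
          (fun u hu => by by_contra k; exact hu (c2 u k))
          fun u w hu hw => (lnk_symm (k1 u trivial hu)).trans (k1 w trivial hw)
        obtain ⟨h, rfl⟩ := (hc c').2 h3
        funext e
        by_contra k
        exact c1 e k (k2 h (fun _ _ => trivial) e (by rw [h4 e (c1 e k)]; exact k))
    exact congrArg Subtype.val (hf a fun e => not_not.1 (hall e))

end Pool.Agent.MP_3ce0a0_al.H79.X
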